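import Pool.Agent.N299.ND.Stm

/-! # ND/FINI: from relations in `F(I)` to local relations in `I` (helper570) -/

set_option autoImplicit false
set_option linter.unusedVariables false

open scoped BoundedContinuousFunction Topology Matrix.Norms.L2Operator
open Filter

noncomputable section

namespace Pool.Agent.N570.ND.FINI

open Pool.Agent.N299 Pool.Agent.N299.DT Pool.Agent.N299.ND

/-- the cutting function -/
def gf (t : ℝ) : ℝ := (Real.sqrt (max t 1))⁻¹

lemma gf_cont : Continuous gf := by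
  unfold gf
  refine Continuous.inv₀ (by fun_prop) fun t => ?_
  exact (Real.sqrt_pos.2 (lt_of_lt_of_le one_pos (le_max_right _ _))).ne'

lemma gf_one {t : ℝ} (h : t ≤ 1) : gf t = 1 := by
  unfold gf
  rw [max_eq_right h, Real.sqrt_one, inv_one]

lemma gf_sq (t : ℝ) (h0 : 0 ≤ t) : gf t * t * gf t ≤ 1 ∧ 0 ≤ gf t * t * gf t := by
  unfold gf
  have h1 : 0 < max t 1 := lt_of_lt_of_le one_pos (le_max_right _ _)
  have h2 : (Real.sqrt (max t 1))⁻¹ * t * (Real.sqrt (max t 1))⁻¹ = t / max t 1 := by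
    have h3 := Real.mul_self_sqrt h1.le
    have h4 : Real.sqrt (max t 1) ≠ 0 := (Real.sqrt_pos.2 h1).ne'
    rw [div_eq_mul_inv]
    nth_rewrite 3 [← h3]
    rw [mul_inv]
    ring
  rw [h2]
  exact ⟨(div_le_one h1).2 (le_max_left _ _), div_nonneg h0 h1.le⟩

/-- contractive lifts -/
lemma contr {A B : Type} [CStarAlgebra A] [CStarAlgebra B] (π : A →⋆ₐ[ℂ] B) (x : A)
    (h : ‖π x‖ ≤ 1) : ∃ u : A, ‖x * u‖ ≤ 1 ∧ π (x * u) = π x := by
  let _ : PartialOrder A := CStarAlgebra.spectralOrder A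
  let _ : StarOrderedRing A := CStarAlgebra.spectralOrderedRing A
  let _ : PartialOrder B := CStarAlgebra.spectralOrder B
  let _ : StarOrderedRing B := CStarAlgebra.spectralOrderedRing B
  set y : A := star x * x with hy
  have hsa : IsSelfAdjoint y := IsSelfAdjoint.star_mul_self x
  refine ⟨cfc gf y, ?_, ?_⟩
  · have h1 : star (x * cfc gf y) * (x * cfc gf y) = cfc (fun t => gf t * t * gf t) y := by
      rw [star_mul, cfc_sa]
      have h2 : cfc gf y * star x * (x * cfc gf y) = cfc gf y * y * cfc gf y := by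
        rw [hy]; simp only [mul_assoc]
      rw [h2, cfc_mul (R := ℝ) (fun t => gf t * t) gf y (gf_cont.mul continuous_id).continuousOn
        gf_cont.continuousOn, cfc_mul (R := ℝ) gf (fun t => t) y gf_cont.continuousOn
        continuous_id.continuousOn, cfc_id' ℝ y]
    have h3 : ‖star (x * cfc gf y) * (x * cfc gf y)‖ ≤ 1 := by
      rw [h1]
      refine norm_cfc_le zero_le_one fun t ht => ?_
      have h4 : 0 ≤ t := spectrum_nonneg_of_nonneg (star_mul_self_nonneg x) ht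
      rw [Real.norm_eq_abs, abs_of_nonneg (gf_sq t h4).2]
      exact (gf_sq t h4).1
    rw [CStarRing.norm_star_mul_self] at h3
    nlinarith [norm_nonneg (x * cfc gf y)]
  · rw [map_mul, map_cfc' π gf gf_cont y hsa]
    have h1 : cfc gf (π y) = 1 := by
      rw [← cfc_one ℝ (π y) (hsa.map π)]
      refine cfc_congr fun t ht => ?_
      have h2 : ‖t‖ ≤ ‖π y‖ := by
        have h5 := spectrum.norm_le_norm_mul_of_mem ht
        have h6 : ‖(1 : B)‖ ≤ 1 := by
          have h7 := CStarRing.norm_star_mul_self (x := (1 : B))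
          rw [star_one, mul_one] at h7
          by_contra hc
          rw [not_le] at hc
          nlinarith
        have h8 := norm_nonneg (π y)
        nlinarith
      have h3 : ‖π y‖ ≤ 1 := by
        rw [hy, map_mul, map_star, CStarRing.norm_star_mul_self]
        nlinarith [norm_nonneg (π x)]
      have h4 : t ≤ 1 := (le_abs_self t).trans (by rw [← Real.norm_eq_abs]; exact h2.trans h3)
      rw [gf_one h4]
      rfl
    rw [h1, mul_one]

/-- the approximate unit of `I` -/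
lemma exists_unit (hAU : S_AU) {B Q : Type} [CStarAlgebra B] [CStarAlgebra Q]
    [TopologicalSpace.SeparableSpace B] {ω : Ultrafilter ℕ} {q : (ℕ →ᵇ B) →⋆ₐ[ℂ] Q}
    (hq : IsUP B Q ω q) (hω : (ω : Filter ℕ) ≤ atTop) {I : Submodule ℂ B} (hI : Idl I) :
    ∃ e : ℕ →ᵇ B, (∀ n, e n ∈ I) ∧ ∀ a ∈ I, q e * q (cst a) = q (cst a) ∧
      q (cst a) * q e = q (cst a) := by
  classical
  have : SecondCountableTopology B := UniformSpace.secondCountable_of_separable B
  have hne : Nonempty I := ⟨0⟩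
  obtain ⟨u, hu⟩ := TopologicalSpace.exists_dense_seq I
  have h1 : ∀ n : ℕ, ∃ e ∈ I, Pos e ∧ Pos (1 - e) ∧ ∀ a ∈ (Finset.range n).image
      (fun k => (u k : B)), ‖e * a - a‖ ≤ 1 / ((n : ℝ) + 1) ∧ ‖a * e - a‖ ≤ 1 / ((n : ℝ) + 1) := by
    intro n
    refine hAU B I hI _ _ ?_ (by positivity)
    intro a ha
    rw [Finset.mem_image] at ha
    obtain ⟨k, -, rfl⟩ := ha
    exact (u k).2
  choose e he1 he2 he3 he4 using h1
  have hn : ∀ n, ‖e n‖ ≤ 1 := by
    intro n
    let _ : PartialOrder B := CStarAlgebra.spectralOrder B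
    let _ : StarOrderedRing B := CStarAlgebra.spectralOrderedRing B
    have h2 := he2 n
    have h3 := he3 n
    rw [pos_iff] at h2 h3
    rw [sub_nonneg] at h3
    exact (CStarAlgebra.norm_le_one_iff_of_nonneg _ h2).2 h3
  set E : ℕ →ᵇ B := BoundedContinuousFunction.ofNormedAddCommGroupDiscrete e 1 hn with hE
  have hEn : ∀ n, E n = e n := fun n => rfl
  -- convergence
  have key : ∀ a ∈ I, ∀ δ : ℝ, 0 < δ → ∀ᶠ n in (ω : Filter ℕ), ‖e n * a - a‖ ≤ δ ∧
      ‖a * e n - a‖ ≤ δ := by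
    intro a ha δ hδ
    obtain ⟨k, hk⟩ := hu.exists_dist_lt (⟨a, ha⟩ : I) (by positivity : 0 < δ / 4)
    have hk2 : ‖a - (u k : B)‖ < δ / 4 := by
      rw [Subtype.dist_eq, dist_eq_norm] at hk
      exact hk
    obtain ⟨n0, hn0⟩ := exists_nat_gt (4 / δ)
    have hev : ∀ᶠ n : ℕ in atTop, max (k + 1) n0 ≤ n := eventually_ge_atTop _
    refine (hev.filter_mono hω).mono fun n hn1 => ?_
    have h5 : k < n := by
      have := (le_max_left _ _).trans hn1
      omega
    have h6 : (4 / δ : ℝ) < (n : ℝ) + 1 := by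
      have h7 : (n0 : ℝ) ≤ n := by exact_mod_cast (le_max_right _ _).trans hn1
      linarith
    have h8 : 1 / ((n : ℝ) + 1) ≤ δ / 4 := by
      rw [div_lt_iff₀ hδ] at h6
      rw [div_le_iff₀ (by positivity)]
      nlinarith
    obtain ⟨h9, h10⟩ := he4 n (u k : B) (Finset.mem_image_of_mem _ (Finset.mem_range.2 h5))
    have h11 := hn n
    constructor
    · have e1 : e n * a - a = e n * (a - u k) + (e n * u k - u k) - (a - u k) := by noncomm_ring
      rw [e1]
      have h12 : ‖e n * (a - u k)‖ ≤ 1 * (δ / 4) :=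
        (norm_mul_le _ _).trans (mul_le_mul h11 hk2.le (norm_nonneg _) zero_le_one)
      calc ‖e n * (a - u k) + (e n * u k - u k) - (a - u k)‖ ≤
          ‖e n * (a - u k)‖ + ‖e n * u k - u k‖ + ‖a - u k‖ :=
            (norm_sub_le _ _).trans (add_le_add_left (norm_add_le _ _) _)
        _ ≤ δ := by linarith
    · have e1 : a * e n - a = (a - u k) * e n + (u k * e n - u k) - (a - u k) := by noncomm_ring
      rw [e1]
      have h12 : ‖(a - u k) * e n‖ ≤ (δ / 4) * 1 :=
        (norm_mul_le _ _).trans (mul_le_mul hk2.le h11 (norm_nonneg _) (by positivity))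
      calc ‖(a - u k) * e n + (u k * e n - u k) - (a - u k)‖ ≤
          ‖(a - u k) * e n‖ + ‖u k * e n - u k‖ + ‖a - u k‖ :=
            (norm_sub_le _ _).trans (add_le_add_left (norm_add_le _ _) _)
        _ ≤ δ := by linarith
  refine ⟨E, fun n => he1 n, fun a ha => ?_⟩
  constructor
  · rw [← sub_eq_zero, ← map_mul, ← map_sub, hq.ker, Metric.tendsto_nhds]
    intro δ hδ
    refine (key a ha (δ / 2) (by positivity)).mono fun n hn1 => ?_
    rw [dist_zero_right, norm_norm]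
    have : (E * cst a - cst a) n = e n * a - a := rfl
    rw [this]
    linarith [hn1.1]
  · rw [← sub_eq_zero, ← map_mul, ← map_sub, hq.ker, Metric.tendsto_nhds]
    intro δ hδ
    refine (key a ha (δ / 2) (by positivity)).mono fun n hn1 => ?_
    rw [dist_zero_right, norm_norm]
    have : (cst a * E - cst a) n = a * e n - a := rfl
    rw [this]
    linarith [hn1.2]

/-- contractive lifts with values in `I` -/
lemma lift {B Q : Type} [CStarAlgebra B] [CStarAlgebra Q] {ω : Ultrafilter ℕ}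
    {q : (ℕ →ᵇ B) →⋆ₐ[ℂ] Q} (hq : IsUP B Q ω q) {I : Submodule ℂ B} (hI : Idl I)
    {E : Type} [CStarAlgebra E] {ρ : CenI q I →⋆ₐ[ℂ] E} (hρ : KirI q I ρ)
    (e : ℕ →ᵇ B) (he : ∀ n, e n ∈ I) (he2 : ∀ a ∈ I, q e * q (cst a) = q (cst a) ∧
      q (cst a) * q e = q (cst a)) (y : E) (hy : ‖y‖ ≤ 1) :
    ∃ (x : ℕ →ᵇ B) (hx : q x ∈ CenI q I), (∀ n, ‖x n‖ ≤ 1) ∧ (∀ n, x n ∈ I) ∧ ρ ⟨q x, hx⟩ = y := by
  -- the unit
  have heC : q e ∈ CenI q I := by
    unfold CenI
    rw [StarSubalgebra.mem_centralizer_iff]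
    rintro _ ⟨a, ha, rfl⟩
    have h1 := he2 a ha
    have h2 := he2 (star a) (hI.star a ha)
    have h3 : star (q (cst a)) = q (cst (star a)) := by
      rw [← map_star]; rfl
    refine ⟨h1.2.trans h1.1.symm, ?_⟩
    rw [h3]
    exact h2.2.trans h2.1.symm
  have he1 : ρ ⟨q e, heC⟩ = 1 := by
    have h1 : (⟨q e, heC⟩ : CenI q I) - 1 = ⟨q e - 1, (CenI q I).sub_mem heC (one_mem _)⟩ := rfl
    have h2 : ρ ((⟨q e, heC⟩ : CenI q I) - 1) = 0 := by
      rw [hρ.ker]
      intro a ha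
      rw [h1]
      show (q e - 1) * q (cst a) = 0
      rw [sub_mul, one_mul, (he2 a ha).1, sub_self]
    rw [map_sub, map_one, sub_eq_zero] at h2
    exact h2
  -- the algebra of the sequences
  set A : StarSubalgebra ℂ (ℕ →ᵇ B) := (CenI q I).comap q with hA
  have hcl : IsClosed (A : Set (ℕ →ᵇ B)) := by
    have h1 : IsClosed ((CenI q I : StarSubalgebra ℂ Q) : Set Q) := by
      unfold CenI
      rw [StarSubalgebra.coe_centralizer]
      exact Set.isClosed_centralizer _
    exact h1.preimage (continuous_hom q)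
  have : IsClosed (A : Set (ℕ →ᵇ B)) := hcl
  let π : A →⋆ₐ[ℂ] E := ρ.comp ((q.comp A.subtype).codRestrict (CenI q I) fun x => x.2)
  have hπ : ∀ x : A, π x = ρ ⟨q x.1, x.2⟩ := fun x => rfl
  obtain ⟨z, hz⟩ := hρ.surj y
  obtain ⟨x0, hx0⟩ := hq.surj z.1
  have hx0A : x0 * e ∈ A := by
    show q (x0 * e) ∈ CenI q I
    rw [map_mul, hx0]
    exact mul_mem z.2 heC
  have hπ0 : π ⟨x0 * e, hx0A⟩ = y := by
    rw [hπ]
    have h1 : (⟨q (x0 * e), hx0A⟩ : CenI q I) = z * ⟨q e, heC⟩ := by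
      apply Subtype.ext
      show q (x0 * e) = z.1 * q e
      rw [map_mul, hx0]
    rw [h1, map_mul, he1, mul_one, hz]
  obtain ⟨u, hu1, hu2⟩ := contr π ⟨x0 * e, hx0A⟩ (by rw [hπ0]; exact hy)
  have hmem : (x0 * e) * u.1 ∈ A := A.mul_mem hx0A u.2
  refine ⟨(x0 * e) * u.1, hmem, ?_, ?_, ?_⟩
  · intro n
    refine le_trans ?_ hu1
    exact BoundedContinuousFunction.norm_coe_le_norm ((x0 * e) * u.1) n
  · intro n
    have : ((x0 * e) * u.1) n = x0 n * e n * u.1 n := rfl
    rw [this]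
    exact hI.mulR _ (hI.mulL _ (he n) _) _
  · rw [hπ0] at hu2
    exact hu2

/-- relations -/
lemma rel {B Q : Type} [CStarAlgebra B] [CStarAlgebra Q] {ω : Ultrafilter ℕ}
    {q : (ℕ →ᵇ B) →⋆ₐ[ℂ] Q} (hq : IsUP B Q ω q) (x : ℕ →ᵇ B) (h : q x = 0) {ε : ℝ} (hε : 0 < ε) :
    ∀ᶠ n in (ω : Filter ℕ), ‖x n‖ ≤ ε := by
  have h1 := (hq.ker x).1 h
  rw [Metric.tendsto_nhds] at h1
  refine (h1 ε hε).mono fun n hn => ?_
  rw [dist_zero_right, norm_norm] at hn
  exact hn.le

end Pool.Agent.N570.ND.FINI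

namespace Pool.Agent.N570.ND

open Pool.Agent.N299 Pool.Agent.N299.DT Pool.Agent.N299.ND FINI

theorem t_FINI (hAU : S_AU) : S_FINI := by
  classical
  intro B Q _ _ _ ω q hq hω I hI E _ ρ hρ hE N F ε hF hε
  obtain ⟨e, he, he2⟩ := exists_unit hAU hq hω hI
  obtain ⟨c, s, hcs⟩ := hE N
  have L := fun y hy => lift hq hI hρ e he he2 y hy
  obtain ⟨d, hd⟩ := hcs.pos
  have hdn : ‖d‖ ≤ 1 := by
    have h1 := hcs.nc 0
    rw [hd, CStarRing.norm_star_mul_self] at h1
    by_contra hc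
    rw [not_le] at hc
    nlinarith
  obtain ⟨D, hD1, hD2, hD3, hD4⟩ := L d hdn
  obtain ⟨S, hS1, hS2, hS3, hS4⟩ := L s hcs.ns
  choose C hC1 hC2 hC3 hC4 using fun i => L (c i) (hcs.nc i)
  -- the families
  set K : Fin (N + 1) → (ℕ →ᵇ B) := fun i => if i = 0 then star D * D else C i with hK
  have hK1 : ∀ i, q (K i) ∈ CenI q I := by
    intro i
    simp only [hK]
    split_ifs
    · rw [map_mul, map_star]
      exact mul_mem (star_mem hD1) hD1
    · exact hC1 i
  have hK4 : ∀ i, ρ ⟨q (K i), hK1 i⟩ = c i := by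
    intro i
    by_cases hi : i = 0
    · have h1 : (⟨q (K i), hK1 i⟩ : CenI q I) = star ⟨q D, hD1⟩ * ⟨q D, hD1⟩ := by
        apply Subtype.ext
        show q (K i) = star (q D) * q D
        simp only [hK, if_pos hi]
        rw [map_mul, map_star]
      rw [h1, map_mul, map_star, hD4, hi, hd]
    · have h1 : (⟨q (K i), hK1 i⟩ : CenI q I) = ⟨q (C i), hC1 i⟩ := by
        apply Subtype.ext
        show q (K i) = q (C i)
        simp only [hK, if_neg hi]
      rw [h1, hC4]
  have hK2 : ∀ i n, ‖K i n‖ ≤ 1 := by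
    intro i n
    by_cases hi : i = 0
    · have h1 : K i n = star (D n) * D n := by
        simp only [hK, if_pos hi]; rfl
      rw [h1, CStarRing.norm_star_mul_self]
      have := hD2 n
      nlinarith [norm_nonneg (D n)]
    · have h1 : K i n = C i n := by
        simp only [hK, if_neg hi]
      rw [h1]
      exact hC2 i n
  have hK3 : ∀ i n, K i n ∈ I := by
    intro i n
    by_cases hi : i = 0
    · have h1 : K i n = star (D n) * D n := by
        simp only [hK, if_pos hi]; rfl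
      rw [h1]
      exact hI.mulL _ (hD3 n) _
    · have h1 : K i n = C i n := by
        simp only [hK, if_neg hi]
      rw [h1]
      exact hC3 i n
  -- commutation
  have hcom : ∀ x : ℕ →ᵇ B, q x ∈ CenI q I → ∀ a ∈ I, q (x * cst a - cst a * x) = 0 := by
    intro x hx a ha
    unfold CenI at hx
    rw [StarSubalgebra.mem_centralizer_iff] at hx
    have h1 := (hx _ ⟨a, ha, rfl⟩).1
    rw [map_sub, map_mul, map_mul, h1, sub_self]
  -- relations
  have hrel : ∀ (x : ℕ →ᵇ B) (hx : q x ∈ CenI q I), ρ ⟨q x, hx⟩ = 0 → ∀ a ∈ I,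
      q (x * cst a) = 0 := by
    intro x hx h0 a ha
    rw [hρ.ker] at h0
    rw [map_mul]
    exact h0 a ha
  have h1 : ∀ a ∈ F, ∀ᶠ n in (ω : Filter ℕ), ∀ i, ‖K i n * a - a * K i n‖ ≤ ε := by
    intro a ha
    rw [eventually_all]
    intro i
    exact rel hq _ (hcom (K i) (hK1 i) a (hF a ha)) hε
  have h2 : ∀ a ∈ F, ∀ᶠ n in (ω : Filter ℕ), ‖S n * a - a * S n‖ ≤ ε := by
    intro a ha
    exact rel hq _ (hcom S hS1 a (hF a ha)) hε
  have h3 : ∀ a ∈ F, ∀ᶠ n in (ω : Filter ℕ), ∀ i,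
      ‖(K i n * star (K i n) - K 0 n * K 0 n) * a‖ ≤ ε := by
    intro a ha
    rw [eventually_all]
    intro i
    have hm : q (K i * star (K i) - K 0 * K 0) ∈ CenI q I := by
      rw [map_sub, map_mul, map_mul, map_star]
      exact sub_mem (mul_mem (hK1 i) (star_mem (hK1 i))) (mul_mem (hK1 0) (hK1 0))
    refine rel hq _ (hrel _ hm ?_ a (hF a ha)) hε
    have e1 : (⟨q (K i * star (K i) - K 0 * K 0), hm⟩ : CenI q I) =
        ⟨q (K i), hK1 i⟩ * star ⟨q (K i), hK1 i⟩ - ⟨q (K 0), hK1 0⟩ * ⟨q (K 0), hK1 0⟩ := by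
      apply Subtype.ext
      show q (K i * star (K i) - K 0 * K 0) = q (K i) * star (q (K i)) - q (K 0) * q (K 0)
      rw [map_sub, map_mul, map_mul, map_star]
    rw [e1, map_sub, map_mul, map_mul, map_star, hK4, hK4, hcs.diag, sub_self]
  have h4 : ∀ a ∈ F, ∀ᶠ n in (ω : Filter ℕ), ∀ i j, i ≠ j → ‖K i n * star (K j n) * a‖ ≤ ε := by
    intro a ha
    rw [eventually_all]
    intro i
    rw [eventually_all]
    intro j
    by_cases hij : i = j
    · exact Eventually.of_forall fun n h => absurd hij h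
    have hm : q (K i * star (K j)) ∈ CenI q I := by
      rw [map_mul, map_star]
      exact mul_mem (hK1 i) (star_mem (hK1 j))
    have h5 : ∀ᶠ n in (ω : Filter ℕ), ‖(K i * star (K j) * cst a) n‖ ≤ ε := by
      refine rel hq _ (hrel _ hm ?_ a (hF a ha)) hε
      have e1 : (⟨q (K i * star (K j)), hm⟩ : CenI q I) =
          ⟨q (K i), hK1 i⟩ * star ⟨q (K j), hK1 j⟩ := by
        apply Subtype.ext
        show q (K i * star (K j)) = q (K i) * star (q (K j))
        rw [map_mul, map_star]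
      rw [e1, map_mul, map_star, hK4, hK4, hcs.orth i j hij]
    exact h5.mono fun n hn _ => hn
  have h5 : ∀ a ∈ F, ∀ᶠ n in (ω : Filter ℕ),
      ‖(star (S n) * S n + ∑ i, star (K i n) * K i n) * a - a‖ ≤ ε := by
    intro a ha
    have hm : q (star S * S + ∑ i, star (K i) * K i - 1) ∈ CenI q I := by
      rw [map_sub, map_add, map_sum, map_one, map_mul, map_star]
      refine sub_mem (add_mem (mul_mem (star_mem hS1) hS1) (sum_mem fun i _ => ?_)) (one_mem _)
      rw [map_mul, map_star]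
      exact mul_mem (star_mem (hK1 i)) (hK1 i)
    have h6 : ∀ᶠ n in (ω : Filter ℕ),
        ‖((star S * S + ∑ i, star (K i) * K i - 1) * cst a) n‖ ≤ ε := by
      refine rel hq _ (hrel _ hm ?_ a (hF a ha)) hε
      have e1 : (⟨q (star S * S + ∑ i, star (K i) * K i - 1), hm⟩ : CenI q I) =
          star ⟨q S, hS1⟩ * ⟨q S, hS1⟩ + ∑ i, star ⟨q (K i), hK1 i⟩ * ⟨q (K i), hK1 i⟩ - 1 := by
        apply Subtype.ext
        simp only [map_sub, map_add, map_sum, map_one, map_mul, map_star]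
        push_cast
        rfl
      rw [e1]
      simp only [map_sub, map_add, map_sum, map_one, map_mul, map_star, hK4, hS4]
      have h7 := hcs.one
      exact norm_le_zero_iff.1 h7
    refine h6.mono fun n hn => ?_
    have e2 : ((star S * S + ∑ i, star (K i) * K i - 1) * cst a) n =
        (star (S n) * S n + ∑ i, star (K i n) * K i n) * a - a := by
      have e3 : ((star S * S + ∑ i, star (K i) * K i - 1) * cst a) n =
          (star (S n) * S n + (∑ i, star (K i) * K i) n - 1) * a := rfl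
      rw [e3, BoundedContinuousFunction.sum_apply, sub_mul, one_mul]
      rfl
    rw [e2] at hn
    exact hn
  have h6 : ∀ a ∈ F, ∀ᶠ n in (ω : Filter ℕ), ‖(K 0 n * S n - S n) * a‖ ≤ ε := by
    intro a ha
    have hm : q (K 0 * S - S) ∈ CenI q I := by
      rw [map_sub, map_mul]
      exact sub_mem (mul_mem (hK1 0) hS1) hS1
    refine rel hq _ (hrel _ hm ?_ a (hF a ha)) hε
    have e1 : (⟨q (K 0 * S - S), hm⟩ : CenI q I) =
        ⟨q (K 0), hK1 0⟩ * ⟨q S, hS1⟩ - ⟨q S, hS1⟩ := by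
      apply Subtype.ext
      show q (K 0 * S - S) = q (K 0) * q S - q S
      rw [map_sub, map_mul]
    rw [e1, map_sub, map_mul, hK4, hS4, hcs.fix, sub_self]
  -- conclusion
  have hall : ∀ᶠ n in (ω : Filter ℕ), ∀ a ∈ F,
      (∀ i, ‖K i n * a - a * K i n‖ ≤ ε) ∧ ‖S n * a - a * S n‖ ≤ ε ∧
      (∀ i, ‖(K i n * star (K i n) - K 0 n * K 0 n) * a‖ ≤ ε) ∧
      (∀ i j, i ≠ j → ‖K i n * star (K j n) * a‖ ≤ ε) ∧
      ‖(star (S n) * S n + ∑ i, star (K i n) * K i n) * a - a‖ ≤ ε ∧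
      ‖(K 0 n * S n - S n) * a‖ ≤ ε := by
    rw [Finset.eventually_all]
    intro a ha
    filter_upwards [h1 a ha, h2 a ha, h3 a ha, h4 a ha, h5 a ha, h6 a ha] with n a1 a2 a3 a4 a5 a6
    exact ⟨a1, a2, a3, a4, a5, a6⟩
  obtain ⟨n, hn⟩ := hall.exists
  refine ⟨fun i => K i n, S n, fun i => hK3 i n, hS3 n, fun i => hK2 i n, hS2 n,
    ⟨D n, hD3 n, ?_⟩, hn⟩
  have : K 0 n = star (D n) * D n := by
    simp only [hK, if_pos rfl]; rfl
  exact this

end Pool.Agent.N570.ND
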