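import Pool.Agent.N627.ND.Stm

/-! # ND/SP: calculus of sparse factorizations -/

set_option autoImplicit false

open scoped Classical

namespace Pool.Agent.N570.ND

open Finset
open Pool.Agent.N627.ND

variable {A B : Type}

theorem Sp_mono {s t s' t' : ℝ} {M : A → B → ℝ} (hs : s ≤ s') (ht : t ≤ t') (h : Sp s t M) :
    Sp s' t' M := by
  obtain ⟨Λ, hΛ, P, Q, h1, h2, h3⟩ := h
  exact ⟨Λ, hΛ, P, Q, fun a => (h1 a).trans hs, fun b => (h2 b).trans ht, h3⟩

/-- sums over a finite set -/
theorem Sp_sum {U : Type} (F : Finset U) {s t : ℝ} (M : U → A → B → ℝ)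
    (h : ∀ u, Sp s t (M u)) : Sp (F.card * s) (F.card * t) fun a b => ∑ u ∈ F, M u a b := by
  choose Λ hΛ P Q h1 h2 h3 using h
  refine ⟨Σ u : F, Λ u.1, inferInstance, fun a l => P l.1.1 a l.2, fun l b => Q l.1.1 l.2 b, ?_, ?_, ?_⟩
  · intro a
    rw [Fintype.sum_sigma]
    calc ∑ u : F, ∑ l, |P u.1 a l| ≤ ∑ u : F, s := sum_le_sum fun u _ => h1 u.1 a
      _ = F.card * s := by rw [sum_const, card_univ, Fintype.card_coe, nsmul_eq_mul]
  · intro b
    rw [Fintype.sum_sigma]
    calc ∑ u : F, ∑ l, |Q u.1 l b| ≤ ∑ u : F, t := sum_le_sum fun u _ => h2 u.1 b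
      _ = F.card * t := by rw [sum_const, card_univ, Fintype.card_coe, nsmul_eq_mul]
  · intro a b
    rw [Fintype.sum_sigma]
    beta_reduce
    rw [← sum_coe_sort F fun u => M u a b]
    exact sum_congr rfl fun u _ => h3 u.1 a b

/-- products over a finite type -/
theorem Sp_prod {ι : Type} [Fintype ι] {s t : ℝ} (hs : 0 ≤ s) (ht : 0 ≤ t) (M : ι → A → B → ℝ)
    (h : ∀ i, Sp s t (M i)) :
    Sp (s ^ Fintype.card ι) (t ^ Fintype.card ι) fun a b => ∏ i, M i a b := by
  choose Λ hΛ P Q h1 h2 h3 using h
  refine ⟨∀ i, Λ i, inferInstance, fun a l => ∏ i, P i a (l i), fun l b => ∏ i, Q i (l i) b, ?_, ?_, ?_⟩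
  · intro a
    have e : ∑ l : ∀ i, Λ i, |∏ i, P i a (l i)| = ∏ i, ∑ l, |P i a l| := by
      rw [prod_univ_sum, Fintype.piFinset_univ]
      exact sum_congr rfl fun l _ => abs_prod _ _
    rw [e]
    calc ∏ i, ∑ l, |P i a l| ≤ ∏ _i : ι, s :=
          prod_le_prod (fun i _ => sum_nonneg fun l _ => abs_nonneg _) fun i _ => h1 i a
      _ = s ^ Fintype.card ι := by rw [prod_const, card_univ]
  · intro b
    have e : ∑ l : ∀ i, Λ i, |∏ i, Q i (l i) b| = ∏ i, ∑ l, |Q i l b| := by
      rw [prod_univ_sum, Fintype.piFinset_univ]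
      exact sum_congr rfl fun l _ => abs_prod _ _
    rw [e]
    calc ∏ i, ∑ l, |Q i l b| ≤ ∏ _i : ι, t :=
          prod_le_prod (fun i _ => sum_nonneg fun l _ => abs_nonneg _) fun i _ => h2 i b
      _ = t ^ Fintype.card ι := by rw [prod_const, card_univ]
  · intro a b
    have e : ∏ i, M i a b = ∏ i, ∑ l, P i a l * Q i l b := prod_congr rfl fun i _ => h3 i a b
    beta_reduce
    rw [e, prod_univ_sum, Fintype.piFinset_univ]
    exact sum_congr rfl fun l _ => prod_mul_distrib

theorem Sp_compl {s t : ℝ} {M : A → B → ℝ} (h : Sp s t M) :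
    Sp (1 + s) (1 + t) fun a b => 1 - M a b := by
  obtain ⟨Λ, hΛ, P, Q, h1, h2, h3⟩ := h
  refine ⟨Option Λ, inferInstance, fun a l => l.elim 1 fun l => - P a l, fun l b => l.elim 1 fun l => Q l b,
    ?_, ?_, ?_⟩
  · intro a
    rw [Fintype.sum_option]
    simp only [Option.elim, abs_one, abs_neg]
    linarith [h1 a]
  · intro b
    rw [Fintype.sum_option]
    simp only [Option.elim, abs_one]
    linarith [h2 b]
  · intro a b
    rw [Fintype.sum_option]
    beta_reduce
    rw [h3 a b]
    simp only [Option.elim, neg_mul, sum_neg_distrib]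
    ring

theorem sr : S_SR := by
  refine ⟨fun A B X => ?_, fun A B X => ?_, fun A B V _ f g => ?_, fun A B X s s' h h1 => Sp_mono h h h1⟩
  · refine ⟨Unit, inferInstance, fun a _ => if X a then 1 else 0, fun _ _ => 1, ?_, ?_, ?_⟩
    · intro a
      simp only [univ_unique, sum_const, card_singleton, one_smul]
      split_ifs <;> simp
    · intro b
      simp
    · intro a b
      simp
  · refine ⟨Unit, inferInstance, fun _ _ => 1, fun _ b => if X b then 1 else 0, ?_, ?_, ?_⟩
    · intro a
      simp
    · intro b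
      simp only [univ_unique, sum_const, card_singleton, one_smul]
      split_ifs <;> simp
    · intro a b
      simp
  · refine ⟨V, inferInstance, fun a v => if f a = v then 1 else 0, fun v b => if v = g b then 1 else 0,
      ?_, ?_, ?_⟩
    · intro a
      refine le_of_eq ?_
      have : ∀ v, |if f a = v then (1 : ℝ) else 0| = if f a = v then 1 else 0 := by
        intro v; split_ifs <;> simp
      simp only [this]
      simp
    · intro b
      refine le_of_eq ?_
      have : ∀ v, |if v = g b then (1 : ℝ) else 0| = if v = g b then 1 else 0 := by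
        intro v; split_ifs <;> simp
      simp only [this]
      simp
    · intro a b
      simp

theorem sb : S_SB := by
  intro A B ι _ s Y X hs hY hX
  set m := Fintype.card ι with hm
  -- the elementary products
  set N : (ι → Prop) → A → B → ℝ := fun u a b =>
    ∏ i, (if u i then (if Y i a b then (1 : ℝ) else 0) else 1 - if Y i a b then (1 : ℝ) else 0) with hN
  have hN1 : ∀ u, Sp ((1 + s) ^ m) ((1 + s) ^ m) (N u) := by
    intro u
    refine Sp_prod (by linarith) (by linarith)
      (fun i a b => if u i then (if Y i a b then (1 : ℝ) else 0) else 1 - if Y i a b then (1 : ℝ) else 0)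
      fun i => ?_
    by_cases hu : u i
    · simp only [if_pos hu]
      exact Sp_mono (by linarith) (by linarith) (hY i)
    · simp only [if_neg hu]
      exact Sp_compl (hY i)
  have hN2 : ∀ u a b, N u a b = if u = fun i => Y i a b then 1 else 0 := by
    intro u a b
    simp only [hN]
    split_ifs with h
    · refine prod_eq_one fun i _ => ?_
      have := congrFun h i
      by_cases hy : Y i a b
      · rw [if_pos (by rw [this]; exact hy), if_pos hy]
      · rw [if_neg (by rw [this]; exact hy), if_neg hy, sub_zero]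
    · obtain ⟨i, hi⟩ : ∃ i, u i ≠ Y i a b := by
        by_contra hc
        push Not at hc
        exact h (funext hc)
      refine prod_eq_zero (mem_univ i) ?_
      by_cases hy : Y i a b
      · have hu : ¬ u i := fun hu => hi (propext ⟨fun _ => hy, fun _ => hu⟩)
        rw [if_neg hu, if_pos hy, sub_self]
      · have hu : u i := by
          by_contra hu
          exact hi (propext ⟨fun h => absurd h hu, fun h => absurd h hy⟩)
        rw [if_pos hu, if_neg hy]
  set F : Finset (ι → Prop) := univ.filter fun u => ∃ a b, (u = fun i => Y i a b) ∧ X a b with hF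
  have hsum := Sp_sum F N hN1
  have hcard : (F.card : ℝ) ≤ 2 ^ m := by
    have h1 : F.card ≤ 2 ^ m := by
      refine (card_le_univ F).trans (le_of_eq ?_)
      rw [Fintype.card_fun, Fintype.card_prop]
    exact_mod_cast h1
  have hpow : (F.card : ℝ) * (1 + s) ^ m ≤ (2 * (1 + s)) ^ m := by
    rw [mul_pow]
    exact mul_le_mul_of_nonneg_right hcard (by positivity)
  have hfin := Sp_mono hpow hpow hsum
  have heq : (fun a b => ∑ u ∈ F, N u a b) = fun a b => if X a b then (1 : ℝ) else 0 := by
    funext a b
    simp only [hN2]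
    rw [sum_ite_eq']
    have hiff : (fun i => Y i a b) ∈ F ↔ X a b := by
      rw [hF, mem_filter]
      constructor
      · rintro ⟨-, a', b', h1, h2⟩
        refine (hX a' b' a b fun i => ?_).1 h2
        have := congrFun h1 i
        rw [this]
      · intro h
        exact ⟨mem_univ _, a, b, rfl, h⟩
    by_cases hx : X a b
    · rw [if_pos (hiff.2 hx), if_pos hx]
    · rw [if_neg (fun h => hx (hiff.1 h)), if_neg hx]
  rw [heq] at hfin
  exact hfin

theorem sc : S_SC := by
  intro A B V _ s z Z c Y hs hz hZ hY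
  choose Λ hΛ P Q h1 h2 h3 using hY
  refine ⟨Σ v, Λ v, inferInstance, fun a l => if l.1 ∈ Z a then P l.1 a l.2 else 0,
    fun l b => if c b = l.1 then Q l.1 l.2 b else 0, ?_, ?_, ?_⟩
  · intro a
    rw [Fintype.sum_sigma]
    have e : ∀ v, ∑ l : Λ v, |if v ∈ Z a then P v a l else 0| ≤ if v ∈ Z a then s else 0 := by
      intro v
      split_ifs
      · exact h1 v a
      · simp
    calc ∑ v, ∑ l : Λ v, |if v ∈ Z a then P v a l else 0| ≤ ∑ v, if v ∈ Z a then s else 0 :=
          sum_le_sum fun v _ => e v
      _ = (Z a).card * s := by rw [sum_ite_mem, univ_inter, sum_const, nsmul_eq_mul]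
      _ ≤ z * s := mul_le_mul_of_nonneg_right (hZ a) hs
  · intro b
    rw [Fintype.sum_sigma]
    have e : ∀ v, ∑ l : Λ v, |if c b = v then Q v l b else 0| ≤ if c b = v then s else 0 := by
      intro v
      split_ifs
      · exact h2 v b
      · simp
    calc ∑ v, ∑ l : Λ v, |if c b = v then Q v l b else 0| ≤ ∑ v, if c b = v then s else 0 :=
          sum_le_sum fun v _ => e v
      _ = s := by rw [sum_ite_eq, if_pos (mem_univ _)]
      _ ≤ z * s := by nlinarith
  · intro a b
    rw [Fintype.sum_sigma]
    have e : ∀ v, ∑ l : Λ v, (if v ∈ Z a then P v a l else 0) * (if c b = v then Q v l b else 0) =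
        if c b = v then (if v ∈ Z a then (if Y v a b then (1 : ℝ) else 0) else 0) else 0 := by
      intro v
      by_cases hv : c b = v
      · by_cases hz : v ∈ Z a
        · simp only [if_pos hv, if_pos hz]
          exact (h3 v a b).symm
        · simp only [if_neg hz, zero_mul, sum_const_zero, ite_self]
      · simp only [if_neg hv, mul_zero, sum_const_zero]
    simp only [e]
    rw [sum_ite_eq, if_pos (mem_univ _)]
    by_cases hz : c b ∈ Z a
    · by_cases hy : Y (c b) a b
      · rw [if_pos ⟨hz, hy⟩, if_pos hz, if_pos hy]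
      · rw [if_neg (fun h => hy h.2), if_pos hz, if_neg hy]
    · rw [if_neg (fun h => hz h.1), if_neg hz]

end Pool.Agent.N570.ND
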